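import Mathlib

/-!
MP_9978f8_co.  Every weakly spreading linear triple system on `n` vertices has at least
`(4/3) n - O(√n)` triples.

Outline.  Any two triples are joined by a third one.  Hence all degrees are `O(√m)`, every triple
contains at least two vertices (hubs) of degree at least `c √m`, and there are only `O(√m)` hubs.
The triples with a non-hub of degree one form a triangle-free graph on the hubs, and any two
hubs with a common neighbour in this graph are covered by another triple.  A counting argument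
then gives `6 m ≥ 8 n - 9 s`, where `s` is the number of hubs.
-/

set_option autoImplicit false

namespace Pool.Agent.Results.MP_9978f8_co.FourThirds

open Finset

variable {V : Type} [Fintype V] [DecidableEq V]

/-- A linear triple system: a family of 3-element sets, two distinct ones of which share at most
one vertex. -/
def IsLinearTripleSystem (F : Finset (Finset V)) : Prop :=
  (∀ T ∈ F, T.card = 3) ∧ ∀ S ∈ F, ∀ T ∈ F, S ≠ T → (S ∩ T).card ≤ 1

/-- The neighbourhood `N(W)`. -/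
def nbhd (F : Finset (Finset V)) (W : Finset V) : Finset V :=
  univ.filter (fun z => z ∉ W ∧ ∃ x ∈ W, ∃ y ∈ W, x ≠ y ∧ ({x, y, z} : Finset V) ∈ F)

/-- The closure `cl(W)`: the intersection of all sets `W' ⊇ W` with `N(W') = ∅`. -/
def cl (F : Finset (Finset V)) (W : Finset V) : Finset V :=
  univ.filter (fun v => ∀ W' : Finset V, W ⊆ W' → nbhd F W' = ∅ → v ∈ W')

/-- `F` is weakly spreading: `cl(V(F')) = V` for every `F' ⊆ F` with at least two triples. -/
def WeaklySpreading (F : Finset (Finset V)) : Prop :=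
  ∀ F' ⊆ F, 2 ≤ F'.card → cl F (F'.biUnion id) = univ

/-- degree -/
def deg (F : Finset (Finset V)) (v : V) : ℕ := (F.filter (fun T => v ∈ T)).card

lemma closed_eq_univ {F F' : Finset (Finset V)} (hws : WeaklySpreading F) (hF' : F' ⊆ F)
    (h2 : 2 ≤ F'.card) {W : Finset V} (hW : F'.biUnion id ⊆ W) (hcl : nbhd F W = ∅) :
    W = univ := by
  have h := hws F' hF' h2
  rw [eq_univ_iff_forall] at h ⊢
  intro v
  have hv := h v
  unfold cl at hv
  rw [mem_filter] at hv
  exact hv.2 W hW hcl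

omit [Fintype V] in
lemma lin_eq {F : Finset (Finset V)} (hF : IsLinearTripleSystem F) {S T : Finset V} (hS : S ∈ F)
    (hT : T ∈ F) {x y : V} (hxy : x ≠ y) (hxS : x ∈ S) (hyS : y ∈ S) (hxT : x ∈ T)
    (hyT : y ∈ T) : S = T := by
  by_contra hne
  have h := hF.2 S hS T hT hne
  have h2 : 1 < (S ∩ T).card :=
    one_lt_card.2 ⟨x, mem_inter.2 ⟨hxS, hxT⟩, y, mem_inter.2 ⟨hyS, hyT⟩, hxy⟩
  omega

/-- every vertex lies in a triple -/
lemma exists_triple {F : Finset (Finset V)} (hws : WeaklySpreading F) (h2 : 2 ≤ F.card) (v : V) :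
    ∃ T ∈ F, v ∈ T := by
  have h := closed_eq_univ hws (Subset.refl F) h2 (W := F.biUnion id) (Subset.refl _) (by
    unfold nbhd
    rw [filter_eq_empty_iff]
    rintro z - ⟨hz, x, _, y, _, _, hT⟩
    exact hz (mem_biUnion.2 ⟨_, hT, by simp⟩))
  have hv : v ∈ F.biUnion id := by rw [h]; exact mem_univ v
  rw [mem_biUnion] at hv
  exact hv

lemma deg_pos {F : Finset (Finset V)} (hws : WeaklySpreading F) (h2 : 2 ≤ F.card) (v : V) :
    1 ≤ deg F v := by
  obtain ⟨T, hT, hv⟩ := exists_triple hws h2 v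
  exact card_pos.2 ⟨T, mem_filter.2 ⟨hT, hv⟩⟩

/-- Two distinct triples are joined by a third one. -/
lemma join {F : Finset (Finset V)} (hn : 7 ≤ Fintype.card V) (hF : IsLinearTripleSystem F)
    (hws : WeaklySpreading F) {S T : Finset V} (hS : S ∈ F) (hT : T ∈ F) (hST : S ≠ T) :
    ∃ J ∈ F, J ≠ S ∧ J ≠ T ∧ ∃ x ∈ S, x ∉ T ∧ ∃ y ∈ T, y ∉ S ∧ x ∈ J ∧ y ∈ J := by
  by_contra hcon
  push Not at hcon
  have hcard : (S ∪ T).card ≤ 6 := by
    refine (card_union_le _ _).trans ?_
    rw [hF.1 S hS, hF.1 T hT]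
  have hne : S ∪ T ≠ univ := by
    intro h
    rw [h, card_univ] at hcard
    omega
  refine hne (closed_eq_univ (F' := {S, T}) hws ?_ ?_ ?_ ?_)
  · intro X hX
    rw [mem_insert, mem_singleton] at hX
    rcases hX with rfl | rfl
    · exact hS
    · exact hT
  · rw [card_pair hST]
  · intro v hv
    rw [mem_biUnion] at hv
    obtain ⟨X, hX, hvX⟩ := hv
    rw [mem_insert, mem_singleton] at hX
    rcases hX with rfl | rfl
    · exact mem_union_left _ hvX
    · exact mem_union_right _ hvX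
  · unfold nbhd
    rw [filter_eq_empty_iff]
    rintro z - ⟨hz, x, hx, y, hy, hxy, hJ⟩
    rw [mem_union, not_or] at hz
    have hJS : ({x, y, z} : Finset V) ≠ S := by
      intro h; exact hz.1 (h ▸ by simp)
    have hJT : ({x, y, z} : Finset V) ≠ T := by
      intro h; exact hz.2 (h ▸ by simp)
    have hnS : ¬ (x ∈ S ∧ y ∈ S) := fun h =>
      hJS (lin_eq hF hJ hS hxy (by simp) (by simp) h.1 h.2)
    have hnT : ¬ (x ∈ T ∧ y ∈ T) := fun h =>
      hJT (lin_eq hF hJ hT hxy (by simp) (by simp) h.1 h.2)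
    rw [mem_union] at hx hy
    by_cases hxS : x ∈ S
    · have hyS : y ∉ S := fun h => hnS ⟨hxS, h⟩
      have hyT : y ∈ T := hy.resolve_left hyS
      have hxT : x ∉ T := fun h => hnT ⟨h, hyT⟩
      exact hcon _ hJ hJS hJT x hxS hxT y hyT hyS (by simp) (by simp)
    · have hxT : x ∈ T := hx.resolve_left hxS
      have hyT : y ∉ T := fun h => hnT ⟨hxT, h⟩
      have hyS : y ∈ S := hy.resolve_right hyT
      exact hcon _ hJ hJS hJT y hyS hyT x hxT hxS (by simp) (by simp)

/-- degrees are at most `O(√m)` -/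
lemma deg_sq_le {F : Finset (Finset V)} (hn : 7 ≤ Fintype.card V) (hF : IsLinearTripleSystem F)
    (hws : WeaklySpreading F) (h2 : 2 ≤ F.card) (v : V) : deg F v ^ 2 ≤ 12 * F.card := by
  have h1 : (F.filter (fun T => v ∈ T)).offDiag.card ≤ (F.biUnion (fun J => J.offDiag)).card := by
    refine Finset.card_le_card_of_forall_subsingleton
      (fun (p : Finset V × Finset V) (q : V × V) => (q.1 ∈ p.1 ∧ q.1 ≠ v) ∧ (q.2 ∈ p.2 ∧ q.2 ≠ v))
      ?_ ?_
    · rintro ⟨S, T⟩ hp
      rw [mem_offDiag, mem_filter, mem_filter] at hp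
      obtain ⟨⟨hS, hvS⟩, ⟨hT, hvT⟩, hST⟩ := hp
      obtain ⟨J, hJ, -, -, x, hxS, hxT, y, hyT, hyS, hxJ, hyJ⟩ := join hn hF hws hS hT hST
      refine ⟨(x, y), ?_, ⟨hxS, ?_⟩, ⟨hyT, ?_⟩⟩
      · rw [mem_biUnion]
        exact ⟨J, hJ, mem_offDiag.2 ⟨hxJ, hyJ, fun h => hxT ((show x = y from h) ▸ hyT)⟩⟩
      · intro h
        simp only at h
        exact hxT (h ▸ hvT)
      · intro h
        simp only at h
        exact hyS (h ▸ hvS)
    · rintro ⟨x, y⟩ _ ⟨S, T⟩ ⟨hp, ⟨hx, hxv⟩, hy, hyv⟩ ⟨S', T'⟩ ⟨hp', ⟨hx', _⟩, hy', _⟩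
      rw [mem_offDiag, mem_filter, mem_filter] at hp hp'
      simp only at hx hy hx' hy' hxv hyv
      exact Prod.ext (lin_eq hF hp.1.1 hp'.1.1 hxv hx hp.1.2 hx' hp'.1.2)
        (lin_eq hF hp.2.1.1 hp'.2.1.1 hyv hy hp.2.1.2 hy' hp'.2.1.2)
  have h3 : (F.biUnion (fun J => J.offDiag)).card ≤ 6 * F.card := by
    refine card_biUnion_le.trans ?_
    rw [mul_comm, ← smul_eq_mul, ← sum_const]
    refine sum_le_sum fun J hJ => ?_
    rw [offDiag_card, hF.1 J hJ]
  rw [offDiag_card] at h1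
  change deg F v * deg F v - deg F v ≤ _ at h1
  have h4 := deg_pos hws h2 v
  rcases Nat.lt_or_ge (deg F v) 2 with h5 | h5
  · have h6 : deg F v = 1 := by omega
    rw [h6]
    omega
  · have h6 : 2 * deg F v ≤ deg F v * deg F v := Nat.mul_le_mul_right _ h5
    rw [pow_two]
    omega

/-- every triple contains a vertex of degree at least `c √m` -/
lemma exists_big {F : Finset (Finset V)} (hn : 7 ≤ Fintype.card V) (hF : IsLinearTripleSystem F)
    (hws : WeaklySpreading F) (h2 : 2 ≤ F.card) {T : Finset V} (hT : T ∈ F) :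
    ∃ a ∈ T, F.card ≤ 3888 * deg F a ^ 2 := by
  set r := Nat.sqrt (12 * F.card) with hr
  have hdr : ∀ v, deg F v ≤ r := fun v => by
    rw [hr, Nat.le_sqrt, ← pow_two]
    exact deg_sq_le hn hF hws h2 v
  have hr2 : r ^ 2 ≤ 12 * F.card := by
    rw [pow_two]; exact Nat.sqrt_le _
  have hTne : T.Nonempty := card_pos.1 (by rw [hF.1 T hT]; norm_num)
  obtain ⟨a, haT, ha⟩ := exists_max_image T (deg F) hTne
  refine ⟨a, haT, ?_⟩
  have h3 : F.erase T ⊆ T.biUnion (fun x => (F.filter (fun J => x ∈ J)).biUnion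
      (fun J => J.biUnion (fun y => F.filter (fun S => y ∈ S)))) := by
    intro S hS
    rw [mem_erase] at hS
    obtain ⟨J, hJ, -, -, x, hxT, -, y, hyS, -, hxJ, hyJ⟩ := join hn hF hws hT hS.2 hS.1.symm
    rw [mem_biUnion]
    refine ⟨x, hxT, mem_biUnion.2 ⟨J, mem_filter.2 ⟨hJ, hxJ⟩, mem_biUnion.2 ⟨y, hyJ, ?_⟩⟩⟩
    exact mem_filter.2 ⟨hS.2, hyS⟩
  have h4 : (F.erase T).card ≤ 3 * (deg F a * (3 * r)) := by
    refine (card_le_card h3).trans (card_biUnion_le.trans ?_)
    have h5 : ∀ x ∈ T, ((F.filter (fun J => x ∈ J)).biUnion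
        (fun J => J.biUnion (fun y => F.filter (fun S => y ∈ S)))).card ≤ deg F a * (3 * r) := by
      intro x hx
      refine card_biUnion_le.trans ?_
      have h6 : ∀ J ∈ F.filter (fun J => x ∈ J),
          (J.biUnion (fun y => F.filter (fun S => y ∈ S))).card ≤ 3 * r := by
        intro J hJ
        refine card_biUnion_le.trans ?_
        refine (sum_le_card_nsmul _ _ r (fun y _ => hdr y)).trans ?_
        rw [hF.1 J (mem_filter.1 hJ).1, smul_eq_mul]
      refine (sum_le_card_nsmul _ _ _ h6).trans ?_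
      rw [smul_eq_mul]
      exact Nat.mul_le_mul_right _ (ha x hx)
    refine (sum_le_card_nsmul _ _ _ h5).trans ?_
    rw [hF.1 T hT, smul_eq_mul]
  rw [card_erase_of_mem hT] at h4
  -- `m - 1 ≤ 9 r d`, `r ^ 2 ≤ 12 m`
  have h5 : F.card ≤ 2 * (F.card - 1) := by omega
  have h6 : F.card ≤ 18 * (deg F a * r) := by
    have : 3 * (deg F a * (3 * r)) = 9 * (deg F a * r) := by ring
    omega
  have h7 : F.card ^ 2 ≤ (18 * (deg F a * r)) ^ 2 := Nat.pow_le_pow_left h6 2
  have h8 : (18 * (deg F a * r)) ^ 2 = 324 * deg F a ^ 2 * r ^ 2 := by ring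
  have h9 : 324 * deg F a ^ 2 * r ^ 2 ≤ 324 * deg F a ^ 2 * (12 * F.card) :=
    Nat.mul_le_mul_left _ hr2
  have h10 : F.card * F.card ≤ (3888 * deg F a ^ 2) * F.card := by
    calc F.card * F.card = F.card ^ 2 := by ring
      _ ≤ 324 * deg F a ^ 2 * (12 * F.card) := by omega
      _ = (3888 * deg F a ^ 2) * F.card := by ring
  exact Nat.le_of_mul_le_mul_right h10 (by omega)

/-- every triple contains a second vertex of degree at least `c √m` -/
lemma exists_second {F : Finset (Finset V)} (hn : 7 ≤ Fintype.card V)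
    (hF : IsLinearTripleSystem F) (hws : WeaklySpreading F) (h2 : 2 ≤ F.card) {T : Finset V}
    (hT : T ∈ F) {a : V} (ha : a ∈ T) : ∃ b ∈ T, b ≠ a ∧ deg F a ≤ 7 * deg F b := by
  have hc2 : (T.erase a).card = 2 := by rw [card_erase_of_mem ha, hF.1 T hT]
  obtain ⟨b, hbT, hb⟩ := exists_max_image (T.erase a) (deg F) (card_pos.1 (by omega))
  refine ⟨b, mem_of_mem_erase hbT, ne_of_mem_erase hbT, ?_⟩
  have h3 : ((F.filter (fun S => a ∈ S)).erase T).card ≤
      ((T.erase a).biUnion (fun x => (F.filter (fun J => x ∈ J)).biUnion id)).card := by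
    refine Finset.card_le_card_of_forall_subsingleton (fun (S : Finset V) y => y ∈ S ∧ y ≠ a)
      ?_ ?_
    · intro S hS
      rw [mem_erase, mem_filter] at hS
      obtain ⟨J, hJ, -, -, x, hxT, hxS, y, hyS, hyT, hxJ, hyJ⟩ :=
        join hn hF hws hT hS.2.1 hS.1.symm
      refine ⟨y, ?_, hyS, fun h => hyT (h ▸ ha)⟩
      rw [mem_biUnion]
      exact ⟨x, mem_erase.2 ⟨fun h => hxS (h ▸ hS.2.2), hxT⟩,
        mem_biUnion.2 ⟨J, mem_filter.2 ⟨hJ, hxJ⟩, hyJ⟩⟩
    · rintro y _ S ⟨hS, hyS, hya⟩ S' ⟨hS', hyS', _⟩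
      rw [mem_erase, mem_filter] at hS hS'
      exact lin_eq hF hS.2.1 hS'.2.1 hya hyS hS.2.2 hyS' hS'.2.2
  have h4 : ((T.erase a).biUnion (fun x => (F.filter (fun J => x ∈ J)).biUnion id)).card ≤
      2 * (deg F b * 3) := by
    refine card_biUnion_le.trans ?_
    have h5 : ∀ x ∈ T.erase a, ((F.filter (fun J => x ∈ J)).biUnion id).card ≤ deg F b * 3 := by
      intro x hx
      refine card_biUnion_le.trans ?_
      refine (sum_le_card_nsmul _ _ 3 (fun J hJ => ?_)).trans ?_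
      · exact (hF.1 J (mem_filter.1 hJ).1).le
      · rw [smul_eq_mul]
        exact Nat.mul_le_mul_right _ (hb x hx)
    refine (sum_le_card_nsmul _ _ _ h5).trans ?_
    rw [hc2, smul_eq_mul]
  rw [card_erase_of_mem (mem_filter.2 ⟨hT, ha⟩)] at h3
  have h6 : deg F a - 1 ≤ 2 * (deg F b * 3) := h3.trans h4
  have h7 := deg_pos hws h2 b
  omega

/-- the set of hubs -/
def hubs (F : Finset (Finset V)) : Finset V :=
  univ.filter (fun v => F.card ≤ 190512 * deg F v ^ 2)

lemma two_hubs {F : Finset (Finset V)} (hn : 7 ≤ Fintype.card V)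
    (hF : IsLinearTripleSystem F) (hws : WeaklySpreading F) (h2 : 2 ≤ F.card) {T : Finset V}
    (hT : T ∈ F) : 2 ≤ (T ∩ hubs F).card := by
  obtain ⟨a, haT, ha⟩ := exists_big hn hF hws h2 hT
  obtain ⟨b, hbT, hba, hb⟩ := exists_second hn hF hws h2 hT haT
  have h3 : deg F a ^ 2 ≤ 49 * deg F b ^ 2 := by
    calc deg F a ^ 2 ≤ (7 * deg F b) ^ 2 := Nat.pow_le_pow_left hb 2
      _ = 49 * deg F b ^ 2 := by ring
  have haH : a ∈ hubs F := by
    unfold hubs
    rw [mem_filter]
    exact ⟨mem_univ _, by omega⟩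
  have hbH : b ∈ hubs F := by
    unfold hubs
    rw [mem_filter]
    exact ⟨mem_univ _, by omega⟩
  exact one_lt_card.2 ⟨a, mem_inter.2 ⟨haT, haH⟩, b, mem_inter.2 ⟨hbT, hbH⟩, hba.symm⟩

omit [Fintype V] in
lemma sum_deg (F : Finset (Finset V)) (A : Finset V) :
    ∑ v ∈ A, (F.filter (fun T => v ∈ T)).card = ∑ T ∈ F, (T ∩ A).card := by
  have h := Finset.sum_card_bipartiteAbove_eq_sum_card_bipartiteBelow (s := A) (t := F)
    (fun (v : V) (T : Finset V) => v ∈ T)
  unfold bipartiteAbove bipartiteBelow at h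
  rw [h]
  refine sum_congr rfl fun T _ => ?_
  congr 1
  ext v
  rw [mem_filter, mem_inter, and_comm]

lemma card_hubs_le {F : Finset (Finset V)} (hF : IsLinearTripleSystem F) (h2 : 2 ≤ F.card) :
    ((hubs F).card : ℝ) ≤ 1311 * Real.sqrt F.card := by
  have hm : (0 : ℝ) < F.card := by exact_mod_cast (show 0 < F.card by omega)
  have h3 : ∀ v ∈ hubs F, Real.sqrt F.card ≤ 437 * (deg F v : ℝ) := by
    intro v hv
    unfold hubs at hv
    rw [mem_filter] at hv
    rw [Real.sqrt_le_left (by positivity)]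
    have h4 : (F.card : ℝ) ≤ 190512 * (deg F v : ℝ) ^ 2 := by exact_mod_cast hv.2
    nlinarith [sq_nonneg (deg F v : ℝ)]
  have h4 : ∑ v ∈ hubs F, deg F v ≤ 3 * F.card := by
    unfold deg
    rw [sum_deg, mul_comm, ← smul_eq_mul]
    refine sum_le_card_nsmul _ _ _ fun T hT => ?_
    exact (card_le_card inter_subset_left).trans (hF.1 T hT).le
  have h5 : ((hubs F).card : ℝ) * Real.sqrt F.card ≤ 1311 * F.card := by
    calc ((hubs F).card : ℝ) * Real.sqrt F.card = ∑ v ∈ hubs F, Real.sqrt F.card := by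
          rw [sum_const, nsmul_eq_mul]
      _ ≤ ∑ v ∈ hubs F, 437 * (deg F v : ℝ) := sum_le_sum h3
      _ = 437 * ((∑ v ∈ hubs F, deg F v : ℕ) : ℝ) := by rw [← mul_sum]; push_cast; rfl
      _ ≤ 437 * ((3 * F.card : ℕ) : ℝ) := by
          apply mul_le_mul_of_nonneg_left _ (by norm_num)
          exact_mod_cast h4
      _ = 1311 * F.card := by push_cast; ring
  have hs : 0 < Real.sqrt F.card := Real.sqrt_pos.2 hm
  have h6 : ((hubs F).card : ℝ) * Real.sqrt F.card ≤ (1311 * Real.sqrt F.card) * Real.sqrt F.card := by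
    rw [mul_assoc, Real.mul_self_sqrt hm.le]
    exact h5
  exact le_of_mul_le_mul_right h6 hs


/-- triples with a non-hub vertex of degree one -/
def F₁ (F : Finset (Finset V)) : Finset (Finset V) :=
  F.filter (fun T => ∃ z ∈ T, z ∉ hubs F ∧ deg F z = 1)

/-- triples with a non-hub vertex of degree at least two -/
def F₂ (F : Finset (Finset V)) : Finset (Finset V) :=
  F.filter (fun T => ∃ z ∈ T, z ∉ hubs F ∧ deg F z ≠ 1)

/-- triples consisting of hubs -/
def F₃ (F : Finset (Finset V)) : Finset (Finset V) := F.filter (fun T => T ⊆ hubs F)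

/-- the standing assumptions -/
structure Std (F : Finset (Finset V)) : Prop where
  hn : 7 ≤ Fintype.card V
  hF : IsLinearTripleSystem F
  hws : WeaklySpreading F
  h2 : 2 ≤ F.card

lemma nonhub_unique {F : Finset (Finset V)} (h : Std F) {T : Finset V} (hT : T ∈ F) {z z' : V}
    (hz : z ∈ T) (hz' : z' ∈ T) (hzH : z ∉ hubs F) (hzH' : z' ∉ hubs F) : z = z' := by
  by_contra hne
  have h1 := two_hubs h.hn h.hF h.hws h.h2 hT
  have h2 : (T ∩ hubs F) ∪ {z, z'} ⊆ T := by
    refine union_subset inter_subset_left ?_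
    intro v hv
    rw [mem_insert, mem_singleton] at hv
    rcases hv with rfl | rfl <;> assumption
  have h3 := card_le_card h2
  rw [card_union_of_disjoint, card_pair hne, h.hF.1 T hT] at h3
  · omega
  · rw [disjoint_right]
    intro v hv hv2
    rw [mem_insert, mem_singleton] at hv
    rw [mem_inter] at hv2
    rcases hv with rfl | rfl
    · exact hzH hv2.2
    · exact hzH' hv2.2

lemma inter_hubs_card {F : Finset (Finset V)} (h : Std F) {T : Finset V} (hT : T ∈ F) {z : V}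
    (hz : z ∈ T) (hzH : z ∉ hubs F) : (T ∩ hubs F).card = 2 := by
  have h1 := two_hubs h.hn h.hF h.hws h.h2 hT
  have h2 : T ∩ hubs F ⊆ T.erase z := by
    intro v hv
    rw [mem_inter] at hv
    exact mem_erase.2 ⟨fun h => hzH (h ▸ hv.2), hv.1⟩
  have h3 := card_le_card h2
  rw [card_erase_of_mem hz, h.hF.1 T hT] at h3
  omega

lemma card_parts {F : Finset (Finset V)} (h : Std F) :
    (F₁ F).card + (F₂ F).card + (F₃ F).card ≤ F.card := by
  have h12 : Disjoint (F₁ F) (F₂ F) := by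
    rw [disjoint_left]
    intro T h1 h2
    unfold F₁ at h1
    unfold F₂ at h2
    rw [mem_filter] at h1 h2
    obtain ⟨hT, z, hz, hzH, hd⟩ := h1
    obtain ⟨_, z', hz', hzH', hd'⟩ := h2
    have := nonhub_unique h hT hz hz' hzH hzH'
    subst this
    exact hd' hd
  have h123 : Disjoint (F₁ F ∪ F₂ F) (F₃ F) := by
    rw [disjoint_left]
    intro T h1 h2
    unfold F₁ F₂ at h1
    unfold F₃ at h2
    rw [mem_union, mem_filter, mem_filter] at h1
    rw [mem_filter] at h2
    rcases h1 with ⟨_, z, hz, hzH, _⟩ | ⟨_, z, hz, hzH, _⟩ <;> exact hzH (h2.2 hz)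
  rw [← card_union_of_disjoint h12, ← card_union_of_disjoint h123]
  refine card_le_card ?_
  refine union_subset (union_subset ?_ ?_) ?_ <;> exact filter_subset _ _

lemma sdiff_sub {F : Finset (Finset V)} : F \ F₁ F ⊆ F₂ F ∪ F₃ F := by
  intro T hT
  rw [mem_sdiff] at hT
  by_cases hs : T ⊆ hubs F
  · exact mem_union_right _ (mem_filter.2 ⟨hT.1, hs⟩)
  · rw [not_subset] at hs
    obtain ⟨z, hz, hzH⟩ := hs
    refine mem_union_left _ (mem_filter.2 ⟨hT.1, z, hz, hzH, ?_⟩)
    intro hd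
    exact hT.2 (mem_filter.2 ⟨hT.1, z, hz, hzH, hd⟩)

/-- the number of vertices -/
lemma card_vertices {F : Finset (Finset V)} (h : Std F) :
    2 * Fintype.card V ≤ 2 * (hubs F).card + 2 * (F₁ F).card + (F₂ F).card := by
  have h1 : ((univ \ hubs F).filter (fun z => deg F z = 1)).card ≤ (F₁ F).card := by
    refine Finset.card_le_card_of_forall_subsingleton (fun z (T : Finset V) => z ∈ T) ?_ ?_
    · intro z hz
      rw [mem_filter, mem_sdiff] at hz
      obtain ⟨T, hT, hzT⟩ := exists_triple h.hws h.h2 z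
      exact ⟨T, mem_filter.2 ⟨hT, z, hzT, hz.1.2, hz.2⟩, hzT⟩
    · rintro T hT z ⟨hz, hzT⟩ z' ⟨hz', hzT'⟩
      rw [mem_filter, mem_sdiff] at hz hz'
      exact nonhub_unique h (mem_filter.1 hT).1 hzT hzT' hz.1.2 hz'.1.2
  have h2 : ((univ \ hubs F).filter (fun z => ¬ deg F z = 1)).card * 2 ≤ (F₂ F).card * 1 := by
    refine Finset.card_mul_le_card_mul (fun z (T : Finset V) => z ∈ T) ?_ ?_
    · intro z hz
      rw [mem_filter, mem_sdiff] at hz
      have h3 := deg_pos h.hws h.h2 z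
      have h4 : 2 ≤ deg F z := by omega
      refine h4.trans (card_le_card ?_)
      intro T hT
      rw [mem_filter] at hT
      unfold bipartiteAbove
      rw [mem_filter]
      exact ⟨mem_filter.2 ⟨hT.1, z, hT.2, hz.1.2, hz.2⟩, hT.2⟩
    · intro T hT
      rw [card_le_one]
      intro z hz z' hz'
      unfold bipartiteBelow at hz hz'
      rw [mem_filter, mem_filter, mem_sdiff] at hz hz'
      exact nonhub_unique h (mem_filter.1 hT).1 hz.2 hz'.2 hz.1.1.2 hz'.1.1.2
  have h3 := Finset.card_filter_add_card_filter_not (s := univ \ hubs F)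
    (fun z => deg F z = 1)
  have h4 : (univ \ hubs F).card + (hubs F).card = Fintype.card V := by
    rw [card_sdiff_add_card_eq_card (subset_univ _), card_univ]
  omega

/-- structure of a triple in `F₁` -/
lemma F₁_struct {F : Finset (Finset V)} (h : Std F) {T : Finset V} (hT : T ∈ F₁ F) :
    T ∈ F ∧ (T ∩ hubs F).card = 2 ∧ ∀ z ∈ T, z ∉ hubs F → ∀ S ∈ F, z ∈ S → S = T := by
  unfold F₁ at hT
  rw [mem_filter] at hT
  obtain ⟨hTF, z, hz, hzH, hd⟩ := hT
  refine ⟨hTF, inter_hubs_card h hTF hz hzH, ?_⟩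
  intro z' hz' hzH' S hS hzS
  have := nonhub_unique h hTF hz hz' hzH hzH'
  subst this
  have h1 : (F.filter (fun T => z ∈ T)).card ≤ 1 := hd.le
  rw [card_le_one] at h1
  exact h1 S (mem_filter.2 ⟨hS, hzS⟩) T (mem_filter.2 ⟨hTF, hz⟩)

/-- Two triples of `F₁` through a common hub `u`: the two other hubs lie in a common triple that
is not in `F₁`. -/
lemma covered {F : Finset (Finset V)} (h : Std F) {T T' : Finset V} (hT : T ∈ F₁ F)
    (hT' : T' ∈ F₁ F) (hTT' : T ≠ T') {u : V} (hu : u ∈ T) (hu' : u ∈ T') (huH : u ∈ hubs F) :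
    ∃ J ∈ F \ F₁ F, ∃ v ∈ T, ∃ w ∈ T', v ∈ hubs F ∧ w ∈ hubs F ∧ v ≠ u ∧ w ≠ u ∧ v ≠ w ∧
      v ∈ J ∧ w ∈ J := by
  obtain ⟨hTF, hT2, hTz⟩ := F₁_struct h hT
  obtain ⟨hTF', hT2', hTz'⟩ := F₁_struct h hT'
  obtain ⟨J, hJ, hJT, hJT', x, hxT, hxT', y, hyT', hyT, hxJ, hyJ⟩ :=
    join h.hn h.hF h.hws hTF hTF' hTT'
  have hxH : x ∈ hubs F := by
    by_contra hcon
    exact hJT (hTz x hxT hcon J hJ hxJ)
  have hyH : y ∈ hubs F := by
    by_contra hcon
    exact hJT' (hTz' y hyT' hcon J hJ hyJ)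
  have hxu : x ≠ u := fun h => hxT' (h ▸ hu')
  have hyu : y ≠ u := fun h => hyT (h ▸ hu)
  have hxy : x ≠ y := fun h => hxT' (h ▸ hyT')
  refine ⟨J, ?_, x, hxT, y, hyT', hxH, hyH, hxu, hyu, hxy, hxJ, hyJ⟩
  rw [mem_sdiff]
  refine ⟨hJ, fun hJ1 => ?_⟩
  obtain ⟨-, hJ2, hJz⟩ := F₁_struct h hJ1
  -- the hubs in the three triples
  have hTh : T ∩ hubs F = {u, x} := by
    symm
    refine eq_of_subset_of_card_le ?_ (by rw [hT2, card_pair hxu.symm])
    intro v hv
    rw [mem_insert, mem_singleton] at hv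
    rw [mem_inter]
    rcases hv with rfl | rfl
    · exact ⟨hu, huH⟩
    · exact ⟨hxT, hxH⟩
  have hTh' : T' ∩ hubs F = {u, y} := by
    symm
    refine eq_of_subset_of_card_le ?_ (by rw [hT2', card_pair hyu.symm])
    intro v hv
    rw [mem_insert, mem_singleton] at hv
    rw [mem_inter]
    rcases hv with rfl | rfl
    · exact ⟨hu', huH⟩
    · exact ⟨hyT', hyH⟩
  have hJh : J ∩ hubs F = {x, y} := by
    symm
    refine eq_of_subset_of_card_le ?_ (by rw [hJ2, card_pair hxy])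
    intro v hv
    rw [mem_insert, mem_singleton] at hv
    rw [mem_inter]
    rcases hv with rfl | rfl
    · exact ⟨hxJ, hxH⟩
    · exact ⟨hyJ, hyH⟩
  have hmemT : ∀ v ∈ T, v ∈ hubs F → v = u ∨ v = x := by
    intro v hv hvH
    have : v ∈ T ∩ hubs F := mem_inter.2 ⟨hv, hvH⟩
    rw [hTh, mem_insert, mem_singleton] at this
    exact this
  have hmemT' : ∀ v ∈ T', v ∈ hubs F → v = u ∨ v = y := by
    intro v hv hvH
    have : v ∈ T' ∩ hubs F := mem_inter.2 ⟨hv, hvH⟩
    rw [hTh', mem_insert, mem_singleton] at this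
    exact this
  have hmemJ : ∀ v ∈ J, v ∈ hubs F → v = x ∨ v = y := by
    intro v hv hvH
    have : v ∈ J ∩ hubs F := mem_inter.2 ⟨hv, hvH⟩
    rw [hJh, mem_insert, mem_singleton] at this
    exact this
  -- the closed set
  have hcl : nbhd F (T ∪ T' ∪ J) = ∅ := by
    unfold nbhd
    rw [filter_eq_empty_iff]
    rintro c - ⟨hc, p, hp, q, hq, hpq, hS⟩
    have hcT : c ∉ T := fun h => hc (mem_union_left _ (mem_union_left _ h))
    have hcT' : c ∉ T' := fun h => hc (mem_union_left _ (mem_union_right _ h))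
    have hcJ : c ∉ J := fun h => hc (mem_union_right _ h)
    have hST : ({p, q, c} : Finset V) ≠ T := fun h => hcT (h ▸ by simp)
    have hST' : ({p, q, c} : Finset V) ≠ T' := fun h => hcT' (h ▸ by simp)
    have hSJ : ({p, q, c} : Finset V) ≠ J := fun h => hcJ (h ▸ by simp)
    have hhub : ∀ v ∈ T ∪ T' ∪ J, v ∈ ({p, q, c} : Finset V) → v = u ∨ v = x ∨ v = y := by
      intro v hv hvS
      rw [mem_union, mem_union] at hv
      rcases hv with (hv | hv) | hv
      · by_cases hvH : v ∈ hubs F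
        · rcases hmemT v hv hvH with h | h
          · exact Or.inl h
          · exact Or.inr (Or.inl h)
        · exact (hST (hTz v hv hvH _ hS hvS)).elim
      · by_cases hvH : v ∈ hubs F
        · rcases hmemT' v hv hvH with h | h
          · exact Or.inl h
          · exact Or.inr (Or.inr h)
        · exact (hST' (hTz' v hv hvH _ hS hvS)).elim
      · by_cases hvH : v ∈ hubs F
        · rcases hmemJ v hv hvH with h | h
          · exact Or.inr (Or.inl h)
          · exact Or.inr (Or.inr h)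
        · exact (hSJ (hJz v hv hvH _ hS hvS)).elim
    have hpS : p ∈ ({p, q, c} : Finset V) := by simp
    have hqS : q ∈ ({p, q, c} : Finset V) := by simp
    have kT : ¬ (p ∈ T ∧ q ∈ T) := fun h' =>
      hST (lin_eq h.hF hS hTF hpq hpS hqS h'.1 h'.2)
    have kT' : ¬ (p ∈ T' ∧ q ∈ T') := fun h' =>
      hST' (lin_eq h.hF hS hTF' hpq hpS hqS h'.1 h'.2)
    have kJ : ¬ (p ∈ J ∧ q ∈ J) := fun h' =>
      hSJ (lin_eq h.hF hS hJ hpq hpS hqS h'.1 h'.2)
    rcases hhub p hp hpS with rfl | rfl | rfl <;> rcases hhub q hq hqS with rfl | rfl | rfl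
    · exact hpq rfl
    · exact kT ⟨hu, hxT⟩
    · exact kT' ⟨hu', hyT'⟩
    · exact kT ⟨hxT, hu⟩
    · exact hpq rfl
    · exact kJ ⟨hxJ, hyJ⟩
    · exact kT' ⟨hyT', hu'⟩
    · exact kJ ⟨hyJ, hxJ⟩
    · exact hpq rfl
  have huniv := closed_eq_univ (F' := {T, T'}) h.hws (by
    intro X hX
    rw [mem_insert, mem_singleton] at hX
    rcases hX with rfl | rfl
    · exact hTF
    · exact hTF') (by rw [card_pair hTT']) (W := T ∪ T' ∪ J) (by
    intro v hv
    rw [mem_biUnion] at hv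
    obtain ⟨X, hX, hvX⟩ := hv
    rw [mem_insert, mem_singleton] at hX
    rcases hX with rfl | rfl
    · exact mem_union_left _ (mem_union_left _ hvX)
    · exact mem_union_left _ (mem_union_right _ hvX)) hcl
  -- but it has at most six elements
  have hsub : T ∪ T' ∪ J ⊆ {u, x, y} ∪ ((T \ hubs F) ∪ (T' \ hubs F) ∪ (J \ hubs F)) := by
    intro v hv
    rw [mem_union, mem_union] at hv
    rw [mem_union, mem_union, mem_union, mem_sdiff, mem_sdiff, mem_sdiff]
    by_cases hvH : v ∈ hubs F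
    · left
      rw [mem_insert, mem_insert, mem_singleton]
      rcases hv with (hv | hv) | hv
      · rcases hmemT v hv hvH with h | h
        · exact Or.inl h
        · exact Or.inr (Or.inl h)
      · rcases hmemT' v hv hvH with h | h
        · exact Or.inl h
        · exact Or.inr (Or.inr h)
      · rcases hmemJ v hv hvH with h | h
        · exact Or.inr (Or.inl h)
        · exact Or.inr (Or.inr h)
    · right
      rcases hv with (hv | hv) | hv
      · exact Or.inl (Or.inl ⟨hv, hvH⟩)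
      · exact Or.inl (Or.inr ⟨hv, hvH⟩)
      · exact Or.inr ⟨hv, hvH⟩
  have hone : ∀ S ∈ F, (S ∩ hubs F).card = 2 → (S \ hubs F).card = 1 := by
    intro S hS hS2
    have h1 := card_sdiff_add_card_inter S (hubs F)
    rw [h.hF.1 S hS] at h1
    omega
  have h1 := card_le_card hsub
  rw [huniv, card_univ] at h1
  have h2 := card_union_le ({u, x, y} : Finset V) ((T \ hubs F) ∪ (T' \ hubs F) ∪ (J \ hubs F))
  have h3 := card_union_le ((T \ hubs F) ∪ (T' \ hubs F)) (J \ hubs F)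
  have h4 := card_union_le (T \ hubs F) (T' \ hubs F)
  have h5 : ({u, x, y} : Finset V).card ≤ 3 := card_le_three
  have h6 := hone T hTF hT2
  have h7 := hone T' hTF' hT2'
  have h8 := hone J hJ hJ2
  have h9 := h.hn
  omega

/-- the number of triples of `F₁` through a hub -/
def d₁ (F : Finset (Finset V)) (v : V) : ℕ := ((F₁ F).filter (fun T => v ∈ T)).card

/-- the number of pairs at `v` covered by triples outside `F₁` -/
def g (F : Finset (Finset V)) (v : V) : ℕ :=
  ∑ J ∈ (F \ F₁ F).filter (fun J => v ∈ J), ((J ∩ hubs F).card - 1)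

lemma d₁_le_g {F : Finset (Finset V)} (h : Std F) {T : Finset V} (hT : T ∈ F₁ F) {u v : V}
    (huv : u ≠ v) (hu : u ∈ T) (hv : v ∈ T) (huH : u ∈ hubs F) (hvH : v ∈ hubs F) :
    d₁ F u ≤ g F v + 1 := by
  obtain ⟨hTF, hT2, hTz⟩ := F₁_struct h hT
  have hTh : T ∩ hubs F = {u, v} := by
    symm
    refine eq_of_subset_of_card_le ?_ (by rw [hT2, card_pair huv])
    intro w hw
    rw [mem_insert, mem_singleton] at hw
    rw [mem_inter]
    rcases hw with rfl | rfl
    · exact ⟨hu, huH⟩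
    · exact ⟨hv, hvH⟩
  have h1 : (((F₁ F).filter (fun S => u ∈ S)).erase T).card ≤
      (((F \ F₁ F).filter (fun J => v ∈ J)).biUnion (fun J => (J ∩ hubs F).erase v)).card := by
    refine Finset.card_le_card_of_forall_subsingleton (fun (S : Finset V) w => w ∈ S ∧ w ≠ u)
      ?_ ?_
    · intro S hS
      rw [mem_erase, mem_filter] at hS
      obtain ⟨J, hJ, x, hxT, w, hwS, hxH, hwH, hxu, hwu, hxw, hxJ, hwJ⟩ :=
        covered h hT hS.2.1 hS.1.symm hu hS.2.2 huH
      have hxv : x = v := by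
        have h2 : x ∈ T ∩ hubs F := mem_inter.2 ⟨hxT, hxH⟩
        rw [hTh, mem_insert, mem_singleton] at h2
        exact h2.resolve_left hxu
      subst hxv
      refine ⟨w, mem_biUnion.2 ⟨J, mem_filter.2 ⟨hJ, hxJ⟩, ?_⟩, hwS, hwu⟩
      exact mem_erase.2 ⟨hxw.symm, mem_inter.2 ⟨hwJ, hwH⟩⟩
    · rintro w _ S ⟨hS, hwS, hwu⟩ S' ⟨hS', hwS', _⟩
      rw [mem_erase, mem_filter] at hS hS'
      exact lin_eq h.hF (F₁_struct h hS.2.1).1 (F₁_struct h hS'.2.1).1 hwu hwS hS.2.2 hwS' hS'.2.2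
  rw [card_erase_of_mem (mem_filter.2 ⟨hT, hu⟩)] at h1
  have h2 : (((F \ F₁ F).filter (fun J => v ∈ J)).biUnion
      (fun J => (J ∩ hubs F).erase v)).card ≤ g F v := by
    unfold g
    refine card_biUnion_le.trans (sum_le_sum fun J hJ => ?_)
    rw [mem_filter] at hJ
    rw [card_erase_of_mem (mem_inter.2 ⟨hJ.2, hvH⟩)]
  unfold d₁
  omega

lemma sum_g_le {F : Finset (Finset V)} (h : Std F) :
    ∑ v ∈ hubs F, g F v ≤ 2 * (F₂ F).card + 6 * (F₃ F).card := by
  unfold g
  rw [Finset.sum_comm' (t' := F \ F₁ F) (s' := fun J => J ∩ hubs F) (by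
    intro v J
    rw [mem_filter, mem_inter]
    tauto)]
  have h1 : ∀ J, ∑ v ∈ J ∩ hubs F, ((J ∩ hubs F).card - 1) =
      (J ∩ hubs F).card * ((J ∩ hubs F).card - 1) := by
    intro J
    rw [sum_const, smul_eq_mul]
  simp only [h1]
  refine (sum_le_sum_of_subset sdiff_sub).trans ?_
  refine le_trans (Nat.le.intro (Finset.sum_union_inter (s₁ := F₂ F) (s₂ := F₃ F))) ?_
  refine Nat.add_le_add ?_ ?_
  · rw [mul_comm, ← smul_eq_mul]
    refine sum_le_card_nsmul _ _ _ fun J hJ => ?_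
    unfold F₂ at hJ
    rw [mem_filter] at hJ
    obtain ⟨hJF, z, hz, hzH, -⟩ := hJ
    rw [inter_hubs_card h hJF hz hzH]
  · rw [mul_comm, ← smul_eq_mul]
    refine sum_le_card_nsmul _ _ _ fun J hJ => ?_
    unfold F₃ at hJ
    rw [mem_filter] at hJ
    have h3 : (J ∩ hubs F).card ≤ 3 := (card_le_card inter_subset_left).trans (h.hF.1 J hJ.1).le
    interval_cases (J ∩ hubs F).card <;> norm_num

lemma two_F₁_le {F : Finset (Finset V)} (h : Std F) :
    2 * (F₁ F).card ≤ (hubs F).card + ∑ v ∈ hubs F, g F v := by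
  have h1 : ∀ v ∈ hubs F, ∑ T ∈ (F₁ F).filter (fun T => v ∈ T),
      (((g F v : ℝ) + 1) / (d₁ F v : ℝ)) ≤ (g F v : ℝ) + 1 := by
    intro v _
    rw [sum_const, nsmul_eq_mul]
    change (d₁ F v : ℝ) * (((g F v : ℝ) + 1) / (d₁ F v : ℝ)) ≤ _
    by_cases hd : (d₁ F v : ℝ) = 0
    · rw [hd, zero_mul]
      positivity
    · rw [mul_div_cancel₀ _ hd]
  have h2 := sum_le_sum h1
  rw [Finset.sum_comm' (t' := F₁ F) (s' := fun T => T ∩ hubs F) (by
    intro v J
    rw [mem_filter, mem_inter]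
    tauto)] at h2
  have h3 : ∀ T ∈ F₁ F, (2 : ℝ) ≤ ∑ v ∈ T ∩ hubs F, (((g F v : ℝ) + 1) / (d₁ F v : ℝ)) := by
    intro T hT
    obtain ⟨hTF, hT2, hTz⟩ := F₁_struct h hT
    obtain ⟨u, v, huv, hTuv⟩ := card_eq_two.1 hT2
    have hu : u ∈ T ∩ hubs F := by rw [hTuv]; simp
    have hv : v ∈ T ∩ hubs F := by rw [hTuv]; simp
    rw [mem_inter] at hu hv
    rw [hTuv, sum_pair huv]
    have k1 := d₁_le_g h hT huv hu.1 hv.1 hu.2 hv.2
    have k2 := d₁_le_g h hT huv.symm hv.1 hu.1 hv.2 hu.2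
    have k3 : (d₁ F u : ℝ) ≤ (g F v : ℝ) + 1 := by exact_mod_cast k1
    have k4 : (d₁ F v : ℝ) ≤ (g F u : ℝ) + 1 := by exact_mod_cast k2
    have p1 : 0 < d₁ F u := card_pos.2 ⟨T, mem_filter.2 ⟨hT, hu.1⟩⟩
    have p2 : 0 < d₁ F v := card_pos.2 ⟨T, mem_filter.2 ⟨hT, hv.1⟩⟩
    have q1 : (0 : ℝ) < d₁ F u := by exact_mod_cast p1
    have q2 : (0 : ℝ) < d₁ F v := by exact_mod_cast p2
    have r1 : (d₁ F v : ℝ) / d₁ F u ≤ ((g F u : ℝ) + 1) / (d₁ F u : ℝ) :=
      div_le_div_of_nonneg_right k4 q1.le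
    have r2 : (d₁ F u : ℝ) / d₁ F v ≤ ((g F v : ℝ) + 1) / (d₁ F v : ℝ) :=
      div_le_div_of_nonneg_right k3 q2.le
    have r3 : (2 : ℝ) ≤ (d₁ F v : ℝ) / d₁ F u + (d₁ F u : ℝ) / d₁ F v := by
      rw [div_add_div _ _ q1.ne' q2.ne', le_div_iff₀ (by positivity)]
      nlinarith [sq_nonneg ((d₁ F u : ℝ) - d₁ F v)]
    linarith
  have h4 := sum_le_sum h3
  rw [sum_const, nsmul_eq_mul] at h4
  have h5 : ((F₁ F).card : ℝ) * 2 ≤ ∑ v ∈ hubs F, ((g F v : ℝ) + 1) := h4.trans h2
  rw [sum_add_distrib, sum_const, nsmul_eq_mul, mul_one] at h5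
  have h6 : ((2 * (F₁ F).card : ℕ) : ℝ) ≤ (((hubs F).card + ∑ v ∈ hubs F, g F v : ℕ) : ℝ) := by
    push_cast
    linarith
  exact_mod_cast h6

/-- main inequality -/
lemma main_ineq {F : Finset (Finset V)} (h : Std F) :
    8 * Fintype.card V ≤ 9 * (hubs F).card + 6 * F.card := by
  have h1 := card_vertices h
  have h2 := two_F₁_le h
  have h3 := sum_g_le h
  have h4 := card_parts h
  omega

/-- Every weakly spreading linear triple system with at least two triples on `n` vertices has at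
least `(4/3) n - 2300 √n` triples. -/
theorem result : ∀ (n : ℕ) (F : Finset (Finset (Fin n))), IsLinearTripleSystem F → 2 ≤ F.card →
    WeaklySpreading F → (4 / 3 : ℝ) * n - 2300 * Real.sqrt n ≤ F.card := by
  intro n F hF h2 hws
  rcases Nat.lt_or_ge n 7 with hn | hn
  · have h1 : (n : ℝ) ≤ 6 := by exact_mod_cast (show n ≤ 6 by omega)
    have h3 : (2 : ℝ) ≤ F.card := by exact_mod_cast h2
    rcases Nat.eq_zero_or_pos n with h0 | h0
    · subst h0
      simp
    · have h4 : (1 : ℝ) ≤ n := by exact_mod_cast h0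
      have h5 : 1 ≤ Real.sqrt n := by
        rw [Real.one_le_sqrt]
        exact h4
      linarith
  · have hstd : Std F := ⟨by rw [Fintype.card_fin]; exact hn, hF, hws, h2⟩
    have h1 := main_ineq hstd
    have h3 := card_hubs_le hF h2
    rw [Fintype.card_fin] at h1
    have h4 : (8 : ℝ) * n ≤ 9 * (hubs F).card + 6 * F.card := by exact_mod_cast h1
    rcases le_or_gt ((4 / 3 : ℝ) * n) F.card with h5 | h5
    · have := Real.sqrt_nonneg (n : ℝ)
      linarith
    · have h6 : Real.sqrt F.card ≤ (7 / 6) * Real.sqrt n := by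
        have h7 : (7 / 6 : ℝ) * Real.sqrt n = Real.sqrt ((7 / 6) ^ 2 * n) := by
          rw [Real.sqrt_mul (by positivity), Real.sqrt_sq (by norm_num)]
        rw [h7]
        apply Real.sqrt_le_sqrt
        have : (0 : ℝ) ≤ n := Nat.cast_nonneg n
        nlinarith
      have h8 := Real.sqrt_nonneg (n : ℝ)
      nlinarith

end Pool.Agent.Results.MP_9978f8_co.FourThirds
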